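import Pool.Agent.Q67.AXI.Defs
import Pool.Agent.Q81.CL.L1

/-!
Project AXI (lemma AXI-32): near a point where the velocity is bounded the scaled dissipation is
small. Energy estimate for the antisymmetric gradient.
-/

set_option autoImplicit false

open MeasureTheory Set Metric Filter Topology
open scoped ContDiff
open H459R3.NS Pool.Agent.W268.NS Pool.Agent.Q67.VD Pool.Agent.W583.MD

namespace Pool.Agent.Q16.AXI.BQ

open Pool.Agent.Q85.CC Pool.Agent.Q85.CL Pool.Agent.Q67.AXI
open Pool.Agent.Q129.VD3 (crl)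
open Pool.Agent.Q81.CL (sm_crl cdo_pd sm_conv)
open Pool.Agent.Q2.CL (pdd pd_sub_s pd_add_s pd_sum_s pd_comm_s pd_congr pd_eqI dt_pdI sm_dtI
  sm_lap pd_zero)

theorem pd_neg_s {f : V → ℝ} (j : Fin 3) (x : V) :
    pd j (fun y => -f y) x = -pd j f x := by
  unfold pd
  rw [fderiv_fun_neg]
  rfl

theorem pd_sq_s {f : V → ℝ} (hf : ContDiff ℝ ∞ f) (j : Fin 3) (x : V) :
    pd j (fun y => f y ^ 2) x = 2 * f x * pd j f x := by
  have e : (fun y => f y ^ 2) = fun y => f y * f y := by
    funext y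
    ring
  rw [e, pd_mul' hf hf]
  ring

section

variable {v : Fin 3 → V → ℝ} (hv : ∀ i, ContDiff ℝ ∞ (v i))

/-- the sum of the squares of the antisymmetric gradient -/
noncomputable def w2 (v : Fin 3 → V → ℝ) (x : V) : ℝ := ∑ a, ∑ b, crl v a b x ^ 2

/-- the sum of the squares of the gradient -/
noncomputable def g2 (v : Fin 3 → V → ℝ) (x : V) : ℝ := ∑ a, ∑ b, pd a (v b) x ^ 2

/-- the sum of the squares of the components -/
noncomputable def n2 (v : Fin 3 → V → ℝ) (x : V) : ℝ := ∑ b, v b x ^ 2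

theorem g2_nn (v : Fin 3 → V → ℝ) (x : V) : 0 ≤ g2 v x :=
  Finset.sum_nonneg fun _ _ => Finset.sum_nonneg fun _ _ => sq_nonneg _

theorem w2_nn (v : Fin 3 → V → ℝ) (x : V) : 0 ≤ w2 v x :=
  Finset.sum_nonneg fun _ _ => Finset.sum_nonneg fun _ _ => sq_nonneg _

theorem n2_nn (v : Fin 3 → V → ℝ) (x : V) : 0 ≤ n2 v x :=
  Finset.sum_nonneg fun _ _ => sq_nonneg _

theorem w2_le (v : Fin 3 → V → ℝ) (x : V) : w2 v x ≤ 4 * g2 v x := by
  have h1 : w2 v x ≤ ∑ a, ∑ b, (2 * pd a (v b) x ^ 2 + 2 * pd b (v a) x ^ 2) := by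
    refine Finset.sum_le_sum fun a _ => Finset.sum_le_sum fun b _ => ?_
    unfold crl
    nlinarith [sq_nonneg (pd a (v b) x + pd b (v a) x)]
  refine h1.trans (le_of_eq ?_)
  simp only [Finset.sum_add_distrib, ← Finset.mul_sum]
  have h2 : ∑ a, ∑ b, pd b (v a) x ^ 2 = ∑ a, ∑ b, pd a (v b) x ^ 2 := Finset.sum_comm
  rw [h2]
  unfold g2
  ring

include hv in
theorem lap_eq {O : Set V} (hO : IsOpen O) (hdiv : ∀ x ∈ O, ∑ i, pd i (v i) x = 0) {x : V}
    (hx : x ∈ O) (b : Fin 3) : lap (v b) x = ∑ a, pd a (crl v a b) x := by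
  have h1 : ∀ a, pd a (crl v a b) x = pd a (pd a (v b)) x - pd b (pd a (v a)) x := by
    intro a
    have e := pd_sub_s (sm_pd (hv b) a) (sm_pd (hv a) b) a x
    rw [pd_comm_s (hv a) b a]
    exact e
  simp_rw [h1]
  rw [Finset.sum_sub_distrib]
  have h2 : ∑ a, pd b (pd a (v a)) x = 0 := by
    rw [← pd_sum_s (f := fun a => pd a (v a)) (fun a => sm_pd (hv a) a) b x]
    have h3 : (fun y => ∑ i, pd i (v i) y) =ᶠ[𝓝 x] fun _ => 0 := by
      filter_upwards [hO.mem_nhds hx] with y hy
      exact hdiv y hy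
    rw [pd_congr h3, pd_zero]
  rw [h2, sub_zero]
  rfl

include hv in
theorem conv_eq (b : Fin 3) (x : V) : conv v b x = ∑ j, v j x * crl v j b x
    + pd b (fun y => 1 / 2 * ∑ j, v j y ^ 2) x := by
  have h1 : pd b (fun y => 1 / 2 * ∑ j, v j y ^ 2) x = ∑ j, v j x * pd b (v j) x := by
    have e : (fun y => 1 / 2 * ∑ j, v j y ^ 2) = fun y => ∑ j, (fun j y => 1 / 2 * v j y * v j y) j y := by
      funext y
      rw [Finset.mul_sum]
      exact Finset.sum_congr rfl fun j _ => by ring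
    rw [e, pd_sum_s fun j => (contDiff_const.mul (hv j)).mul (hv j)]
    refine Finset.sum_congr rfl fun j _ => ?_
    have e2 := pd_mul' (f := fun y => 1 / 2 * v j y) (g := v j) (contDiff_const.mul (hv j)) (hv j) b x
    have e3 : pd b (fun y => 1 / 2 * v j y) x = 1 / 2 * pd b (v j) x := by
      unfold pd
      have h : HasFDerivAt (fun y => 1 / 2 * v j y) _ x := (pdd (hv j) x).hasFDerivAt.const_mul (1 / 2)
      rw [h.fderiv]
      simp
    rw [e2, e3]
    ring
  rw [h1, ← Finset.sum_add_distrib]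
  unfold conv crl
  exact Finset.sum_congr rfl fun j _ => by ring

end

/-- the local energy estimate for the antisymmetric gradient at one time -/
theorem oneA {O : Set V} (hO : IsOpen O) {v : Fin 3 → V → ℝ} (hv : ∀ i, ContDiff ℝ ∞ (v i))
    (hdiv : ∀ x ∈ O, ∑ i, pd i (v i) x = 0) {q : V → ℝ} (hq : ContDiff ℝ ∞ q)
    {τ : Fin 3 → V → ℝ} (hτs : ∀ i, ContDiff ℝ ∞ (τ i)) (hτ : ∀ i, ∀ x ∈ O, τ i x =
      lap (v i) x - conv v i x - pd i q x)
    {χ : V → ℝ} (hχ : ContDiff ℝ ∞ χ) (h0 : ∀ x, 0 ≤ χ x) (h1 : ∀ x, χ x ≤ 1)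
    {S : Set V} (hS : IsCompact S) (hSO : S ⊆ O) (hχS : tsupport χ ⊆ S)
    {D B : ℝ} (hD1 : ∀ j x, |pd j χ x| ≤ D) (hB : ∀ i, ∀ x ∈ S, |v i x| ≤ B) :
    ∫ x, (∑ a, ∑ b, 2 * (crl v a b x * crl τ a b x)) * χ x ^ 2
      ≤ (72 * B ^ 2 + 240 * D ^ 2) * ∫ x in S, g2 v x := by
  have hχc : HasCompactSupport χ := hS.of_isClosed_subset (isClosed_tsupport χ) hχS
  have hSm : MeasurableSet S := hS.measurableSet
  have hχ2 : ContDiff ℝ ∞ fun x => χ x ^ 2 := hχ.pow 2
  have hχ2c : HasCompactSupport fun x => χ x ^ 2 := by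
    have e : (fun x => χ x ^ 2) = fun x => χ x * χ x := by
      funext x
      ring
    rw [e]
    exact hχc.mul_left
  have hloc : ∀ x ∉ S, χ =ᶠ[𝓝 x] fun _ => 0 := fun x hx =>
    notMem_tsupport_iff_eventuallyEq.mp fun h => hx (hχS h)
  have hzt : ∀ z ∉ S, χ z = 0 := fun z hz =>
    image_eq_zero_of_notMem_tsupport fun h => hz (hχS h)
  have hpd0 : ∀ x ∉ S, ∀ j, pd j χ x = 0 := by
    intro x hx j
    rw [pd_congr (hloc x hx) j]
    exact pd_zero j x
  have hWs : ∀ a b, ContDiff ℝ ∞ (crl v a b) := fun a b => sm_crl hv a b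
  -- the tested field
  obtain ⟨G, hG⟩ : ∃ G : Fin 3 → Fin 3 → V → ℝ, G = fun a b x => χ x ^ 2 * crl v a b x :=
    ⟨_, rfl⟩
  have hGs : ∀ a b, ContDiff ℝ ∞ (G a b) := by
    intro a b
    rw [hG]
    exact hχ2.mul (hWs a b)
  have hGc : ∀ a b, HasCompactSupport (G a b) := by
    intro a b
    rw [hG]
    exact hχ2c.mul_right
  have hGpd : ∀ a b j x, pd j (G a b) x =
      χ x ^ 2 * pd j (crl v a b) x + 2 * χ x * pd j χ x * crl v a b x := by
    intro a b j x
    have e := pd_mul' hχ2 (hWs a b) j x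
    rw [hG]
    refine e.trans ?_
    rw [pd_sq_s hχ]
  have hGpd0 : ∀ a b j, ∀ x ∉ S, pd j (G a b) x = 0 := by
    intro a b j x hx
    rw [hGpd, hzt x hx]
    ring
  -- the fields on the right hand side
  obtain ⟨F, hF⟩ : ∃ F : Fin 3 → V → ℝ, F = fun b x => ∑ a, pd a (crl v a b) x := ⟨_, rfl⟩
  obtain ⟨g, hg⟩ : ∃ g : Fin 3 → V → ℝ, g = fun b x => ∑ j, v j x * crl v j b x := ⟨_, rfl⟩
  have hFs : ∀ b, ContDiff ℝ ∞ (F b) := by
    intro b
    rw [hF]
    exact ContDiff.sum fun a _ => sm_pd (hWs a b) a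
  have hgs : ∀ b, ContDiff ℝ ∞ (g b) := by
    intro b
    rw [hg]
    exact ContDiff.sum fun j _ => (hv j).mul (hWs j b)
  obtain ⟨Q, hQ⟩ : ∃ Q : V → ℝ, Q = fun y => q y + 1 / 2 * ∑ j, v j y ^ 2 := ⟨_, rfl⟩
  have hns : ContDiff ℝ ∞ fun y => 1 / 2 * ∑ j, v j y ^ 2 :=
    contDiff_const.mul (ContDiff.sum fun j _ => (hv j).pow 2)
  have hQs : ContDiff ℝ ∞ Q := by
    rw [hQ]
    exact hq.add hns
  have hτO : ∀ b, ∀ x ∈ O, τ b x = F b x - g b x - pd b Q x := by
    intro b x hx
    have e1 := pd_add_s hq hns b x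
    rw [hτ b x hx, lap_eq hv hO hdiv hx b, conv_eq hv b x, hF, hg, hQ, e1]
    ring
  -- step 1
  have s1 : ∀ x, (∑ a, ∑ b, 2 * (crl v a b x * crl τ a b x)) * χ x ^ 2
      = ∑ a, ∑ b, 4 * (pd a (τ b) x * G a b x) := by
    intro x
    rw [hG]
    unfold crl
    simp only [Fin.sum_univ_three]
    ring
  have i1 : ∀ a b, Integrable fun x => 4 * (pd a (τ b) x * G a b x) := fun a b =>
    (int_cs ((sm_pd (hτs b) a).continuous.mul (hGs a b).continuous) (hGc a b).mul_left).const_mul 4
  simp_rw [s1]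
  rw [integral_finsetSum _ fun a _ => integrable_finsetSum _ fun b _ => i1 a b]
  have s2 : ∀ a, ∫ x, ∑ b, 4 * (pd a (τ b) x * G a b x)
      = (∑ b, ∫ x, -4 * (F b x - g b x) * pd a (G a b) x)
        + ∑ b, ∫ x, 4 * (pd b Q x * pd a (G a b) x) := by
    intro a
    rw [integral_finsetSum _ fun b _ => i1 a b, ← Finset.sum_add_distrib]
    refine Finset.sum_congr rfl fun b _ => ?_
    have e1 := Pool.Agent.Q153.VD.ibp_cs (hτs b) (hGs a b) (hGc a b) a
    have e2 : ∫ x, 4 * (pd a (τ b) x * G a b x) = ∫ x, -4 * (τ b x * pd a (G a b) x) := by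
      rw [integral_const_mul, integral_const_mul, e1]
      ring
    rw [e2, ← integral_add]
    · refine integral_congr_ae (Eventually.of_forall fun x => ?_)
      show -4 * (τ b x * pd a (G a b) x) = -4 * (F b x - g b x) * pd a (G a b) x
        + 4 * (pd b Q x * pd a (G a b) x)
      by_cases hx : x ∈ S
      · rw [hτO b x (hSO hx)]
        ring
      · rw [hGpd0 a b a x hx]
        ring
    · exact int_cs ((continuous_const.mul ((hFs b).continuous.sub (hgs b).continuous)).mul
        (sm_pd (hGs a b) a).continuous) (cs_pd (hGc a b) a).mul_left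
    · exact (int_cs ((sm_pd hQs b).continuous.mul (sm_pd (hGs a b) a).continuous)
        (cs_pd (hGc a b) a).mul_left).const_mul 4
  rw [Finset.sum_congr rfl fun a _ => s2 a, Finset.sum_add_distrib]
  -- the gradient does not contribute
  have s3 : ∑ a, ∑ b, ∫ x, 4 * (pd b Q x * pd a (G a b) x) = 0 := by
    have e1 : ∀ a b, ∫ x, 4 * (pd b Q x * pd a (G a b) x)
        = ∫ x, -4 * (Q x * pd b (pd a (G a b)) x) := by
      intro a b
      have e1 := Pool.Agent.Q153.VD.ibp_cs hQs (sm_pd (hGs a b) a) (cs_pd (hGc a b) a) b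
      rw [integral_const_mul, integral_const_mul, e1]
      ring
    have e2 : ∀ a b, ∫ x, 4 * (pd b Q x * pd a (G a b) x)
        = -∫ x, 4 * (pd a Q x * pd b (G b a) x) := by
      intro a b
      rw [e1 a b, e1 b a, ← integral_neg]
      refine integral_congr_ae (Eventually.of_forall fun x => ?_)
      show -4 * (Q x * pd b (pd a (G a b)) x) = -(-4 * (Q x * pd a (pd b (G b a)) x))
      have e3 : G b a = fun y => -G a b y := by
        funext y
        rw [hG]
        unfold crl
        ring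
      have e4 : pd b (G b a) = fun y => -pd b (G a b) y := by
        funext y
        rw [e3]
        exact pd_neg_s b y
      rw [e4, pd_neg_s, pd_comm_s (hGs a b) a b]
      ring
    have e5 : ∑ a, ∑ b, ∫ x, 4 * (pd b Q x * pd a (G a b) x)
        = -∑ a, ∑ b, ∫ x, 4 * (pd b Q x * pd a (G a b) x) := by
      conv_lhs => rw [Finset.sum_congr rfl fun a _ => Finset.sum_congr rfl fun b _ => e2 a b]
      rw [Finset.sum_comm]
      simp only [Finset.sum_neg_distrib]
    linarith
  rw [s3, add_zero]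
  -- the bound
  have i2 : ∀ a b, Integrable fun x => -4 * (F b x - g b x) * pd a (G a b) x := fun a b =>
    int_cs ((continuous_const.mul ((hFs b).continuous.sub (hgs b).continuous)).mul
        (sm_pd (hGs a b) a).continuous) (cs_pd (hGc a b) a).mul_left
  have s4 : ∑ a, ∑ b, ∫ x, -4 * (F b x - g b x) * pd a (G a b) x
      = ∫ x, ∑ b, -4 * (F b x - g b x) * ∑ a, pd a (G a b) x := by
    rw [Finset.sum_comm, integral_finsetSum]
    · refine Finset.sum_congr rfl fun b _ => ?_
      rw [← integral_finsetSum _ fun a _ => i2 a b]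
      refine integral_congr_ae (Eventually.of_forall fun x => ?_)
      show ∑ a, -4 * (F b x - g b x) * pd a (G a b) x
        = -4 * (F b x - g b x) * ∑ a, pd a (G a b) x
      rw [Finset.mul_sum]
    · intro b _
      simp_rw [Finset.mul_sum]
      exact integrable_finsetSum _ fun a _ => i2 a b
  rw [s4]
  have hgc : Continuous (g2 v) := by
    unfold g2
    exact continuous_finsetSum _ fun i _ => continuous_finsetSum _ fun j _ =>
      (sm_pd (hv j) i).continuous.pow 2
  have jg : IntegrableOn (g2 v) S := hgc.continuousOn.integrableOn_compact hS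
  rw [← integral_const_mul, ← integral_indicator hSm]
  have i3 : Integrable fun x => ∑ b, -4 * (F b x - g b x) * ∑ a, pd a (G a b) x := by
    refine integrable_finsetSum _ fun b _ => ?_
    simp_rw [Finset.mul_sum]
    exact integrable_finsetSum _ fun a _ => i2 a b
  refine integral_mono i3 ((integrable_indicator_iff hSm).2 (jg.const_mul _)) fun x => ?_
  show ∑ b, -4 * (F b x - g b x) * ∑ a, pd a (G a b) x ≤ _
  by_cases hx : x ∈ S
  · rw [indicator_of_mem hx]
    have hB0 : 0 ≤ B := (abs_nonneg _).trans (hB 0 x hx)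
    have hD0 : 0 ≤ D := (abs_nonneg _).trans (hD1 0 x)
    have hc0 := h0 x
    have hc1 := h1 x
    have key : ∀ b, -4 * (F b x - g b x) * ∑ a, pd a (G a b) x
        ≤ (18 * B ^ 2 + 60 * D ^ 2) * ∑ a, crl v a b x ^ 2 := by
      intro b
      obtain ⟨X, hX⟩ : ∃ X, X = ∑ a, pd a χ x * crl v a b x := ⟨_, rfl⟩
      have e1 : ∑ a, pd a (G a b) x = χ x ^ 2 * F b x + 2 * χ x * X := by
        rw [hX, hF, Finset.mul_sum, Finset.mul_sum, ← Finset.sum_add_distrib]
        refine Finset.sum_congr rfl fun a _ => ?_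
        rw [hGpd]
        ring
      have hXb : X ^ 2 ≤ 3 * D ^ 2 * ∑ a, crl v a b x ^ 2 := by
        rw [hX]
        refine (Finset.sum_mul_sq_le_sq_mul_sq _ _ _).trans ?_
        refine mul_le_mul_of_nonneg_right ?_ (Finset.sum_nonneg fun _ _ => sq_nonneg _)
        have : ∀ a, pd a χ x ^ 2 ≤ D ^ 2 := by
          intro a
          rw [← sq_abs (pd a χ x)]
          have := hD1 a x
          gcongr
        refine (Finset.sum_le_sum fun a _ => this a).trans (le_of_eq ?_)
        simp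
      have hgb : g b x ^ 2 ≤ 3 * B ^ 2 * ∑ a, crl v a b x ^ 2 := by
        rw [hg]
        refine (Finset.sum_mul_sq_le_sq_mul_sq _ _ _).trans ?_
        refine mul_le_mul_of_nonneg_right ?_ (Finset.sum_nonneg fun _ _ => sq_nonneg _)
        have : ∀ a, v a x ^ 2 ≤ B ^ 2 := by
          intro a
          rw [← sq_abs (v a x)]
          have := hB a x hx
          gcongr
        refine (Finset.sum_le_sum fun a _ => this a).trans (le_of_eq ?_)
        simp
      rw [e1]
      generalize F b x = f at *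
      generalize g b x = g' at *
      generalize χ x = c at *
      generalize ∑ a, crl v a b x ^ 2 = w at *
      have hc2 : c ^ 2 ≤ 1 := by nlinarith
      have hcg : c ^ 2 * g' ^ 2 ≤ g' ^ 2 := by nlinarith [sq_nonneg g']
      have q1 := sq_nonneg (c * f + 4 * X)
      have q2 := sq_nonneg (c * f - c * g')
      have q3 := sq_nonneg (c * g' - X)
      have q4 := sq_nonneg (c * f)
      calc -4 * (f - g') * (c ^ 2 * f + 2 * c * X)
          = 6 * (c ^ 2 * g' ^ 2) + 20 * X ^ 2 - (c * f) ^ 2 - (c * f + 4 * X) ^ 2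
            - 2 * (c * f - c * g') ^ 2 - 4 * (c * g' - X) ^ 2 := by ring
        _ ≤ 6 * g' ^ 2 + 20 * X ^ 2 := by linarith
        _ ≤ 6 * (3 * B ^ 2 * w) + 20 * (3 * D ^ 2 * w) := by linarith
        _ = (18 * B ^ 2 + 60 * D ^ 2) * w := by ring
    refine (Finset.sum_le_sum fun b _ => key b).trans ?_
    rw [← Finset.mul_sum]
    have e2 : ∑ b, ∑ a, crl v a b x ^ 2 = w2 v x := Finset.sum_comm
    rw [e2]
    have e3 := w2_le v x
    calc (18 * B ^ 2 + 60 * D ^ 2) * w2 v x ≤ (18 * B ^ 2 + 60 * D ^ 2) * (4 * g2 v x) := by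
          gcongr
      _ = (72 * B ^ 2 + 240 * D ^ 2) * g2 v x := by ring
  · rw [indicator_of_notMem hx]
    have : ∀ b, ∑ a, pd a (G a b) x = 0 := fun b =>
      Finset.sum_eq_zero fun a _ => hGpd0 a b a x hx
    simp [this]

/-- the local estimate of the gradient by the antisymmetric gradient -/
theorem oneB {O : Set V} (hO : IsOpen O) {v : Fin 3 → V → ℝ} (hv : ∀ i, ContDiff ℝ ∞ (v i))
    (hdiv : ∀ x ∈ O, ∑ i, pd i (v i) x = 0)
    {χ : V → ℝ} (hχ : ContDiff ℝ ∞ χ)
    {S : Set V} (hS : IsCompact S) (hSO : S ⊆ O) (hχS : tsupport χ ⊆ S)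
    {D : ℝ} (hD1 : ∀ j x, |pd j χ x| ≤ D) :
    ∫ x, g2 v x * χ x ^ 2 ≤ (∫ x, w2 v x * χ x ^ 2) + 12 * D ^ 2 * ∫ x in S, n2 v x := by
  have hχc : HasCompactSupport χ := hS.of_isClosed_subset (isClosed_tsupport χ) hχS
  have hSm : MeasurableSet S := hS.measurableSet
  have hχ2 : ContDiff ℝ ∞ fun x => χ x ^ 2 := hχ.pow 2
  have hχ2c : HasCompactSupport fun x => χ x ^ 2 := by
    have e : (fun x => χ x ^ 2) = fun x => χ x * χ x := by
      funext x
      ring
    rw [e]
    exact hχc.mul_left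
  have hloc : ∀ x ∉ S, χ =ᶠ[𝓝 x] fun _ => 0 := fun x hx =>
    notMem_tsupport_iff_eventuallyEq.mp fun h => hx (hχS h)
  have hzt : ∀ z ∉ S, χ z = 0 := fun z hz =>
    image_eq_zero_of_notMem_tsupport fun h => hz (hχS h)
  have hpd0 : ∀ x ∉ S, ∀ j, pd j χ x = 0 := by
    intro x hx j
    rw [pd_congr (hloc x hx) j]
    exact pd_zero j x
  have hg2c : Continuous (g2 v) := by
    unfold g2
    exact continuous_finsetSum _ fun i _ => continuous_finsetSum _ fun j _ =>
      (sm_pd (hv j) i).continuous.pow 2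
  have hw2c : Continuous (w2 v) := by
    unfold w2
    exact continuous_finsetSum _ fun i _ => continuous_finsetSum _ fun j _ =>
      (sm_crl hv i j).continuous.pow 2
  have hn2c : Continuous (n2 v) := by
    unfold n2
    exact continuous_finsetSum _ fun i _ => (hv i).continuous.pow 2
  have ig : Integrable fun x => g2 v x * χ x ^ 2 :=
    int_cs (hg2c.mul hχ2.continuous) hχ2c.mul_left
  have iw : Integrable fun x => w2 v x * χ x ^ 2 :=
    int_cs (hw2c.mul hχ2.continuous) hχ2c.mul_left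
  -- the mixed terms
  have hHs : ∀ a b, ContDiff ℝ ∞ fun x => χ x ^ 2 * pd b (v a) x := fun a b =>
    hχ2.mul (sm_pd (hv a) b)
  have hHc : ∀ a b, HasCompactSupport fun x => χ x ^ 2 * pd b (v a) x := fun a b =>
    hχ2c.mul_right
  have im : ∀ a b, Integrable fun x => pd a (v b) x * (χ x ^ 2 * pd b (v a) x) := fun a b =>
    int_cs ((sm_pd (hv b) a).continuous.mul (hHs a b).continuous) (hHc a b).mul_left
  have e0 : ∀ x, g2 v x * χ x ^ 2 = 1 / 2 * (w2 v x * χ x ^ 2)
      + ∑ a, ∑ b, pd a (v b) x * (χ x ^ 2 * pd b (v a) x) := by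
    intro x
    unfold g2 w2 crl
    simp only [Fin.sum_univ_three]
    ring
  have imm : Integrable fun x => ∑ a, ∑ b, pd a (v b) x * (χ x ^ 2 * pd b (v a) x) :=
    integrable_finsetSum _ fun a _ => integrable_finsetSum _ fun b _ => im a b
  have e1 : ∫ x, g2 v x * χ x ^ 2 = 1 / 2 * (∫ x, w2 v x * χ x ^ 2)
      + ∫ x, ∑ a, ∑ b, pd a (v b) x * (χ x ^ 2 * pd b (v a) x) := by
    rw [← integral_const_mul, ← integral_add (iw.const_mul _) imm]
    exact integral_congr_ae (Eventually.of_forall e0)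
  have iH : ∀ a b, Integrable fun x => v b x * pd a (fun x => χ x ^ 2 * pd b (v a) x) x :=
    fun a b => int_cs ((hv b).continuous.mul (sm_pd (hHs a b) a).continuous)
      (cs_pd (hHc a b) a).mul_left
  have e2 : ∫ x, ∑ a, ∑ b, pd a (v b) x * (χ x ^ 2 * pd b (v a) x)
      = ∫ x, -∑ a, ∑ b, v b x * pd a (fun x => χ x ^ 2 * pd b (v a) x) x := by
    rw [integral_neg, integral_finsetSum _ fun a _ => integrable_finsetSum _ fun b _ => im a b,
      integral_finsetSum _ fun a _ => integrable_finsetSum _ fun b _ => iH a b,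
      ← Finset.sum_neg_distrib]
    refine Finset.sum_congr rfl fun a _ => ?_
    rw [integral_finsetSum _ fun b _ => im a b, integral_finsetSum _ fun b _ => iH a b,
      ← Finset.sum_neg_distrib]
    refine Finset.sum_congr rfl fun b _ => ?_
    rw [Pool.Agent.Q153.VD.ibp_cs (hv b) (hHs a b) (hHc a b) a, neg_neg]
  have jn : IntegrableOn (n2 v) S := hn2c.continuousOn.integrableOn_compact hS
  have e3 : ∫ x, -∑ a, ∑ b, v b x * pd a (fun x => χ x ^ 2 * pd b (v a) x) x
      ≤ 1 / 2 * (∫ x, g2 v x * χ x ^ 2) + 6 * D ^ 2 * ∫ x in S, n2 v x := by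
    have ind : Integrable (S.indicator fun x => 6 * D ^ 2 * n2 v x) :=
      (integrable_indicator_iff hSm).2 (jn.const_mul _)
    rw [← integral_const_mul, ← integral_const_mul (6 * D ^ 2), ← integral_indicator hSm,
      ← integral_add (ig.const_mul _) ind]
    refine integral_mono ?_ ((ig.const_mul _).add ind) fun x => ?_
    · exact (integrable_finsetSum _ fun a _ => integrable_finsetSum _ fun b _ => iH a b).neg
    · show -∑ a, ∑ b, v b x * pd a (fun x => χ x ^ 2 * pd b (v a) x) x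
        ≤ 1 / 2 * (g2 v x * χ x ^ 2) + S.indicator (fun x => 6 * D ^ 2 * n2 v x) x
      have e4 : ∀ a b, pd a (fun x => χ x ^ 2 * pd b (v a) x) x
          = χ x ^ 2 * pd a (pd b (v a)) x + 2 * χ x * pd a χ x * pd b (v a) x := by
        intro a b
        rw [pd_mul' hχ2 (sm_pd (hv a) b), pd_sq_s hχ]
      by_cases hx : x ∈ S
      · rw [indicator_of_mem hx]
        have e5 : ∑ a, ∑ b, v b x * pd a (fun x => χ x ^ 2 * pd b (v a) x) x
            = ∑ a, ∑ b, 2 * χ x * pd a χ x * v b x * pd b (v a) x := by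
          have e6 : ∑ a, ∑ b, v b x * (χ x ^ 2 * pd a (pd b (v a)) x) = 0 := by
            rw [Finset.sum_comm]
            refine Finset.sum_eq_zero fun b _ => ?_
            have e7 : ∑ a, pd a (pd b (v a)) x = 0 := by
              have e8 : ∀ a, pd a (pd b (v a)) x = pd b (pd a (v a)) x := fun a =>
                pd_comm_s (hv a) a b x
              simp_rw [e8]
              rw [← pd_sum_s (f := fun a => pd a (v a)) (fun a => sm_pd (hv a) a) b x]
              have h3 : (fun y => ∑ i, pd i (v i) y) =ᶠ[𝓝 x] fun _ => 0 := by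
                filter_upwards [hO.mem_nhds (hSO hx)] with y hy
                exact hdiv y hy
              rw [pd_congr h3, pd_zero]
            have e9 : ∑ a, v b x * (χ x ^ 2 * pd a (pd b (v a)) x)
                = v b x * χ x ^ 2 * ∑ a, pd a (pd b (v a)) x := by
              rw [Finset.mul_sum]
              exact Finset.sum_congr rfl fun a _ => by ring
            rw [e9, e7, mul_zero]
          have e10 : ∑ a, ∑ b, v b x * pd a (fun x => χ x ^ 2 * pd b (v a) x) x
              = ∑ a, ∑ b, v b x * (χ x ^ 2 * pd a (pd b (v a)) x)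
                + ∑ a, ∑ b, 2 * χ x * pd a χ x * v b x * pd b (v a) x := by
            rw [← Finset.sum_add_distrib]
            refine Finset.sum_congr rfl fun a _ => ?_
            rw [← Finset.sum_add_distrib]
            refine Finset.sum_congr rfl fun b _ => ?_
            rw [e4]
            ring
          rw [e10, e6, zero_add]
        rw [e5, ← Finset.sum_neg_distrib]
        have e11 : ∀ a b, -(2 * χ x * pd a χ x * v b x * pd b (v a) x)
            ≤ 1 / 2 * (χ x ^ 2 * pd b (v a) x ^ 2) + 2 * D ^ 2 * v b x ^ 2 := by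
          intro a b
          have d2 : pd a χ x ^ 2 ≤ D ^ 2 := by
            rw [← sq_abs (pd a χ x)]
            have := hD1 a x
            gcongr
          have d3 : pd a χ x ^ 2 * v b x ^ 2 ≤ D ^ 2 * v b x ^ 2 := by gcongr
          nlinarith [sq_nonneg (χ x * pd b (v a) x + 2 * pd a χ x * v b x)]
        calc ∑ a, -∑ b, 2 * χ x * pd a χ x * v b x * pd b (v a) x
            = ∑ a, ∑ b, -(2 * χ x * pd a χ x * v b x * pd b (v a) x) := by
              simp only [Finset.sum_neg_distrib]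
          _ ≤ ∑ a, ∑ b, (1 / 2 * (χ x ^ 2 * pd b (v a) x ^ 2) + 2 * D ^ 2 * v b x ^ 2) :=
              Finset.sum_le_sum fun a _ => Finset.sum_le_sum fun b _ => e11 a b
          _ = 1 / 2 * (g2 v x * χ x ^ 2) + 6 * D ^ 2 * n2 v x := by
              unfold g2 n2
              simp only [Fin.sum_univ_three]
              ring
      · rw [indicator_of_notMem hx]
        have e5 : ∑ a, ∑ b, v b x * pd a (fun x => χ x ^ 2 * pd b (v a) x) x = 0 := by
          refine Finset.sum_eq_zero fun a _ => Finset.sum_eq_zero fun b _ => ?_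
          rw [e4, hzt x hx]
          ring
        rw [e5, hzt x hx]
        simp
  rw [e2] at e1
  linarith

theorem bq : StmBQ := by
  intro T E O u p hT h y hy hrg ε hε
  obtain ⟨B, δ, hδ, hB⟩ := hrg
  -- the cut-off
  obtain ⟨R₁, hR₁, hR₁O⟩ := Metric.isOpen_iff.1 h.openO y hy
  obtain ⟨R, hRdef⟩ : ∃ R, R = min (R₁ / 2) δ := ⟨_, rfl⟩
  have hR : 0 < R := by rw [hRdef]; exact lt_min (by linarith) hδ
  have hRδ : R ≤ δ := by rw [hRdef]; exact min_le_right _ _
  have hRO : closedBall y R ⊆ O := by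
    refine (closedBall_subset_ball ?_).trans hR₁O
    rw [hRdef]
    exact (min_le_left _ _).trans_lt (by linarith)
  let b : ContDiffBump y := ⟨R / 2, R, by positivity, by linarith⟩
  let χ : V → ℝ := ⇑b
  have hχd : χ = ⇑b := rfl
  have hχ : ContDiff ℝ ∞ χ := b.contDiff
  have hχ0 : ∀ x, 0 ≤ χ x := fun x => b.nonneg
  have hχ1 : ∀ x, χ x ≤ 1 := fun x => b.le_one
  have hχ2 : ∀ x ∈ closedBall y (R / 2), χ x = 1 := fun x hx => b.one_of_mem_closedBall hx
  have hχc : HasCompactSupport χ := b.hasCompactSupport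
  set S : Set V := closedBall y R with hS
  have hχS : tsupport χ ⊆ S := by
    rw [hχd, b.tsupport_eq]
  have hSc : IsCompact S := isCompact_closedBall y R
  have hb1 : ∀ j, ∃ C, ∀ x, ‖pd j χ x‖ ≤ C := fun j =>
    (sm_pd hχ j).continuous.bounded_above_of_compact_support (cs_pd hχc j)
  choose C1 hC1 using hb1
  have hC1' : ∀ j, 0 ≤ C1 j := fun j => (norm_nonneg _).trans (hC1 j 0)
  obtain ⟨D, hD⟩ : ∃ D, D = ∑ j, C1 j := ⟨_, rfl⟩
  have hD1 : ∀ j x, |pd j χ x| ≤ D := by
    intro j x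
    have e1 := Finset.single_le_sum (f := fun j => C1 j)
      (fun j _ => hC1' j) (Finset.mem_univ j)
    have e2 := hC1 j x
    rw [Real.norm_eq_abs] at e2
    rw [hD]
    linarith
  -- smoothness
  have hvi : ∀ i, ContDiffOn ℝ ∞ (fun z : ℝ × V => u z.1 z.2 i) (Ioo 0 T ×ˢ univ) :=
    fun i => contDiffOn_pi.1 h.smooth_u i
  have hsl : ∀ t ∈ Ioo 0 T, ∀ i, ContDiff ℝ ∞ ((fun i y => u t y i : Fin 3 → V → ℝ) i) :=
    fun t ht i => slice (F := fun t y => u t y i) (hvi i) ht
  have hwt : ∀ a c, ContDiffOn ℝ ∞ (fun z : ℝ × V => crl (fun i y => u z.1 y i) a c z.2)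
      (Ioo 0 T ×ˢ univ) := fun a c =>
    (cdo_pd (f := fun s y => u s y c) (hvi _) a).sub
      (cdo_pd (f := fun s y => u s y a) (hvi _) c)
  have hΦ : ContDiffOn ℝ ∞ (fun z : ℝ × V => χ z.2 ^ 2) (Ioo 0 T ×ˢ univ) :=
    ((hχ.comp contDiff_snd).pow 2).contDiffOn
  have hF : ContDiffOn ℝ ∞ (fun z : ℝ × V => w2 (fun i y => u z.1 y i) z.2 * χ z.2 ^ 2)
      (Ioo 0 T ×ˢ univ) := by
    refine ContDiffOn.mul ?_ hΦ
    unfold w2
    exact ContDiffOn.sum fun a _ => ContDiffOn.sum fun c _ => (hwt a c).pow 2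
  obtain ⟨R', hR'⟩ : ∃ R : ℝ, tsupport χ ⊆ closedBall (0 : V) R :=
    hχc.isCompact.isBounded.subset_closedBall 0
  have hz0 : ∀ z ∉ closedBall (0 : V) R', χ z = 0 := fun z hz =>
    image_eq_zero_of_notMem_tsupport fun h => hz (hR' h)
  obtain ⟨H, hH⟩ : ∃ H : ℝ → ℝ, H = fun s => ∫ x, w2 (fun i y => u s y i) x * χ x ^ 2 :=
    ⟨_, rfl⟩
  obtain ⟨g, hg⟩ : ∃ g : ℝ → ℝ, g = fun s => ∫ x in S, W221.NS.gsq (u s) x := ⟨_, rfl⟩
  have hgg : ∀ s x, g2 (fun i y => u s y i) x = W221.NS.gsq (u s) x := fun s x =>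
    Finset.sum_comm
  obtain ⟨K, hK⟩ : ∃ K, K = 72 * B ^ 2 + 240 * D ^ 2 := ⟨_, rfl⟩
  have hK0 : 0 ≤ K := by rw [hK]; positivity
  -- the derivative
  have hder : ∀ t ∈ Ioo 0 T, T - δ < t → ∃ d, HasDerivAt H d t ∧ d ≤ K * g t := by
    intro t ht htδ
    have h1 := Pool.Agent.Q225.CC.hd_intR
      (F := fun s z => w2 (fun i y => u s y i) z * χ z ^ 2) (R := R') hF
      (fun s _ z hz => by simp [hz0 z hz]) ht
    rw [hH]
    refine ⟨_, h1, ?_⟩
    set τ : Fin 3 → V → ℝ := fun i y => deriv (fun s => u s y i) t with hτd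
    have hdw : ∀ a c x, HasDerivAt (fun s => crl (fun i y => u s y i) a c x) (crl τ a c x) t := by
      intro a c x
      exact (dt_pdI (f := fun s y => u s y c) (hvi _) ht a x).sub
        (dt_pdI (f := fun s y => u s y a) (hvi _) ht c x)
    have hdq : ∀ x, deriv (fun s => w2 (fun i y => u s y i) x * χ x ^ 2) t =
        (∑ a, ∑ c, 2 * (crl (fun i y => u t y i) a c x * crl τ a c x)) * χ x ^ 2 := by
      intro x
      have e1 : HasDerivAt (fun s => w2 (fun i y => u s y i) x)
          (∑ a, ∑ c, 2 * (crl (fun i y => u t y i) a c x * crl τ a c x)) t := by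
        unfold w2
        refine HasDerivAt.fun_sum fun a _ => HasDerivAt.fun_sum fun c _ => ?_
        refine ((hdw a c x).pow 2).congr_deriv ?_
        push_cast
        ring
      exact (e1.mul_const (χ x ^ 2)).deriv
    simp_rw [hdq]
    have h2 := oneA h.openO (hsl t ht) (h.divfree t ht) (q := p t) (slice h.smooth_p ht)
      (τ := τ) (fun i => sm_dtI (f := fun t y => u t y i) (hvi i) ht) (fun i x hx => by
        have m := h.momentum t ht x hx i
        show deriv (fun s => u s x i) t = _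
        unfold lap conv
        linarith) hχ hχ0 hχ1 hSc hRO hχS hD1 (B := B) (fun i x hx => by
          have e1 := hB t ⟨htδ, ht.2⟩ ht.1 x (by
            rw [← dist_eq_norm]
            exact (mem_closedBall.1 hx).trans hRδ)
          have e2 := norm_le_pi_norm (u t x) i
          rw [Real.norm_eq_abs] at e2
          exact e2.trans e1)
    refine h2.trans (le_of_eq ?_)
    rw [hK, hg]
    simp_rw [hgg]
  -- integrability of the bound
  have hgi : IntegrableOn g (Ioo 0 T) := by
    have e1 : IntegrableOn (fun z : ℝ × V => W221.NS.gsq (u z.1) z.2) (Ioo 0 T ×ˢ S) :=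
      h.dis.mono_set (prod_mono subset_rfl hRO)
    rw [IntegrableOn, Measure.volume_eq_prod, ← Measure.prod_restrict] at e1
    rw [hg]
    exact e1.integral_prod_left
  have hgn : ∀ s x, 0 ≤ W221.NS.gsq (u s) x := fun s x =>
    Finset.sum_nonneg fun i _ => Finset.sum_nonneg fun j _ => sq_nonneg _
  have hg0 : ∀ s, 0 ≤ g s := fun s => by
    rw [hg]
    exact integral_nonneg fun x => hgn s x
  have hKi : IntegrableOn (fun s => K * g s) (Ioo 0 T) := hgi.const_mul K
  obtain ⟨T₀, hT₀d⟩ : ∃ T₀, T₀ = max (T / 2) (T - δ / 2) := ⟨_, rfl⟩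
  have hT₀ : 0 < T₀ := by rw [hT₀d]; exact lt_max_of_lt_left (by linarith)
  have hT₀T : T₀ < T := by rw [hT₀d]; exact max_lt (by linarith) (by linarith)
  have hT₀δ : T - δ < T₀ := by rw [hT₀d]; exact lt_max_of_lt_right (by linarith)
  have hE0 : 0 ≤ E := by
    refine le_trans ?_ (h.en T₀ ⟨hT₀, hT₀T⟩)
    exact integral_nonneg fun x => Finset.sum_nonneg fun i _ => sq_nonneg _
  have hH0 : ∀ s, 0 ≤ H s := fun s => by
    rw [hH]
    exact integral_nonneg fun x => mul_nonneg (w2_nn _ x) (sq_nonneg _)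
  obtain ⟨M, hM⟩ : ∃ M, M = H T₀ + (∫ s in Ioo 0 T, K * g s) + 12 * D ^ 2 * E := ⟨_, rfl⟩
  have hM0 : 0 ≤ M := by
    have e1 := hH0 T₀
    have e2 : 0 ≤ ∫ s in Ioo 0 T, K * g s := integral_nonneg fun s => mul_nonneg hK0 (hg0 s)
    rw [hM]
    positivity
  -- the uniform bound
  have key : ∀ t ∈ Ico T₀ T, ∫ x in closedBall y (R / 2), W221.NS.gsq (u t) x ≤ M := by
    intro t ht
    have ht0 : t ∈ Ioo 0 T := ⟨hT₀.trans_le ht.1, ht.2⟩
    have hsub : Icc T₀ t ⊆ Ioo 0 T := fun s hs => ⟨hT₀.trans_le hs.1, hs.2.trans_lt ht.2⟩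
    have hder' : ∀ s ∈ Icc T₀ t, ∃ d, HasDerivAt H d s ∧ d ≤ K * g s := fun s hs =>
      hder s (hsub hs) (hT₀δ.trans_le hs.1)
    have hcont : ContinuousOn H (Icc T₀ t) := fun s hs => by
      obtain ⟨d, hd, _⟩ := hder' s hs
      exact hd.continuousAt.continuousWithinAt
    choose! d hd hle using hder'
    have k1 := intervalIntegral.sub_le_integral_of_hasDeriv_right_of_le (g := H) (g' := d)
      (φ := fun s => K * g s) ht.1 hcont
      (fun s hs => (hd s (Ioo_subset_Icc_self hs)).hasDerivWithinAt)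
      (hKi.mono_set hsub) (fun s hs => hle s (Ioo_subset_Icc_self hs))
    have e1 : ∫ s in T₀..t, K * g s ≤ ∫ s in Ioo 0 T, K * g s := by
      rw [intervalIntegral.integral_of_le ht.1]
      refine setIntegral_mono_set hKi (Eventually.of_forall fun s => mul_nonneg hK0 (hg0 s)) ?_
      exact Filter.Eventually.of_forall fun s hs => ⟨hT₀.trans hs.1, hs.2.trans_lt ht.2⟩
    have e2 := oneB h.openO (hsl t ht0) (h.divfree t ht0) hχ hSc hRO hχS hD1
    have e3 : ∫ x in S, n2 (fun i y => u t y i) x ≤ E := by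
      refine le_trans ?_ (h.en t ht0)
      exact setIntegral_mono_set (h.en_int t ht0) (Eventually.of_forall fun x =>
        Finset.sum_nonneg fun i _ => sq_nonneg _) hRO.eventuallyLE
    have e4 : ∫ x, w2 (fun i y => u t y i) x * χ x ^ 2 = H t := by rw [hH]
    rw [e4] at e2
    have hgc : Continuous (W221.NS.gsq (u t)) := by
      unfold W221.NS.gsq
      exact continuous_finsetSum _ fun i _ => continuous_finsetSum _ fun j _ =>
        (sm_pd (hsl t ht0 i) j).continuous.pow 2
    have e5 : ∫ x in closedBall y (R / 2), W221.NS.gsq (u t) x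
        ≤ ∫ x, g2 (fun i y => u t y i) x * χ x ^ 2 := by
      rw [← integral_indicator measurableSet_closedBall]
      simp_rw [hgg]
      refine integral_mono ((integrable_indicator_iff measurableSet_closedBall).2
        (hgc.continuousOn.integrableOn_compact (isCompact_closedBall _ _))) ?_ fun x => ?_
      · refine int_cs (hgc.mul (hχ.continuous.pow 2)) ?_
        have e : (fun x => W221.NS.gsq (u t) x * χ x ^ 2)
            = fun x => (W221.NS.gsq (u t) x * χ x) * χ x := by
          funext x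
          ring
        rw [e]
        exact hχc.mul_left
      · simp only
        by_cases hx : x ∈ closedBall y (R / 2)
        · rw [indicator_of_mem hx, hχ2 x hx]
          simp
        · rw [indicator_of_notMem hx]
          exact mul_nonneg (hgn t x) (sq_nonneg _)
    have e6 : 12 * D ^ 2 * ∫ x in S, n2 (fun i y => u t y i) x ≤ 12 * D ^ 2 * E := by gcongr
    rw [hM]
    linarith
  -- conclusion
  obtain ⟨r₁, hr₁d⟩ : ∃ r₁, r₁ = min (min 1 (R / 4)) (min ((T - T₀) / 2) (ε / (M + 1))) :=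
    ⟨_, rfl⟩
  have hr₁ : 0 < r₁ := by
    rw [hr₁d]
    exact lt_min (lt_min one_pos (by linarith)) (lt_min (by linarith) (by positivity))
  have b1 : r₁ ≤ 1 := by rw [hr₁d]; exact (min_le_left _ _).trans (min_le_left _ _)
  have b2 : r₁ ≤ R / 4 := by rw [hr₁d]; exact (min_le_left _ _).trans (min_le_right _ _)
  have b3 : r₁ ≤ (T - T₀) / 2 := by
    rw [hr₁d]; exact (min_le_right _ _).trans (min_le_left _ _)
  have b4 : r₁ ≤ ε / (M + 1) := by
    rw [hr₁d]; exact (min_le_right _ _).trans (min_le_right _ _)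
  refine ⟨(T₀ + T) / 2, r₁, R / 4, by linarith, by linarith, hr₁, by linarith, ?_⟩
  intro t ht x hx r hr
  have hr0 : 0 < r := hr.1
  have hr1 : r ≤ 1 := hr.2.trans b1
  have hr2 : r ^ 2 ≤ r := by nlinarith
  have hbd : ∀ s ∈ Ioo (t - r ^ 2) t, ‖W221.NS.B2 x r (u s)‖ ≤ M := by
    intro s hs
    have hsI : s ∈ Ico T₀ T := by
      refine ⟨?_, hs.2.trans ht.2⟩
      have := hs.1
      have := ht.1
      linarith [hr.2]
    have hB0 : 0 ≤ W221.NS.B2 x r (u s) := integral_nonneg fun x => hgn s x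
    rw [Real.norm_of_nonneg hB0]
    refine le_trans ?_ (key s hsI)
    unfold W221.NS.B2
    have ht0 : s ∈ Ioo 0 T := ⟨hT₀.trans_le hsI.1, hsI.2⟩
    have hgc : Continuous (W221.NS.gsq (u s)) := by
      unfold W221.NS.gsq
      exact continuous_finsetSum _ fun i _ => continuous_finsetSum _ fun j _ =>
        (sm_pd (hsl s ht0 i) j).continuous.pow 2
    refine setIntegral_mono_set
      (hgc.continuousOn.integrableOn_compact (isCompact_closedBall _ _))
      (Eventually.of_forall fun x => hgn s x) ?_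
    apply LE.le.eventuallyLE
    intro z hz
    have e1 : dist z x < r := hz
    have e2 : dist x y ≤ R / 4 := hx
    have e3 := dist_triangle z x y
    show dist z y ≤ R / 2
    have e4 := hr.2
    linarith
  have hfin := norm_setIntegral_le_of_norm_le_const (μ := volume) (s := Ioo (t - r ^ 2) t)
    (f := fun s => W221.NS.B2 x r (u s)) (C := M) (by simp) hbd
  have hvol : volume.real (Ioo (t - r ^ 2) t) = r ^ 2 := by
    rw [Real.volume_real_Ioo_of_le (by nlinarith)]
    ring
  rw [hvol] at hfin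
  have h5 := (le_abs_self _).trans hfin
  refine h5.trans ?_
  have h6 : r * (M + 1) ≤ ε := by
    have : r ≤ ε / (M + 1) := hr.2.trans b4
    rwa [le_div_iff₀ (by positivity)] at this
  nlinarith

end Pool.Agent.Q16.AXI.BQ
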