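import Pool.Agent.Q67.AXI.Defs
import Pool.Agent.W440.MD.SOB

/-!
Project AXI (lemma AXI-30): the bound of the mollified velocity near the axis.
-/

set_option autoImplicit false

open MeasureTheory Set Metric Filter Topology
open scoped ContDiff
open H459R3.NS Pool.Agent.W268.NS Pool.Agent.Q67.VD

namespace Pool.Agent.Q16.AXI

open Pool.Agent.Q85.CC Pool.Agent.Q85.CL Pool.Agent.TH305.AX Pool.Agent.Q67.AXI

/-- The part of the field without rotation. -/
noncomputable def zz (v : V → V) (x : V) : V := ![x 0 * UU v x, x 1 * UU v x, v x 2]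

lemma zz_sm {v : V → V} (hv : ContDiff ℝ ∞ v) (hU : ContDiff ℝ ∞ (UU v)) :
    ContDiff ℝ ∞ (zz v) := by
  rw [contDiff_pi]
  intro i
  have h0 : ContDiff ℝ ∞ (fun x : V => x 0) := contDiff_apply ℝ ℝ 0
  have h1 : ContDiff ℝ ∞ (fun x : V => x 1) := contDiff_apply ℝ ℝ 1
  fin_cases i
  · exact h0.mul hU
  · exact h1.mul hU
  · exact (contDiff_pi.1 hv) 2

lemma pd_xU (i j : Fin 3) {U : V → ℝ} (hU : ContDiff ℝ ∞ U) (x : V) :
    pd j (fun y => y i * U y) x = (if i = j then 1 else 0) * U x + x i * pd j U x := by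
  unfold pd
  have h0 : HasFDerivAt (fun y : V => y i) (ContinuousLinearMap.proj (R := ℝ) (φ := fun _ : Fin 3 => ℝ) i) x :=
    (ContinuousLinearMap.proj (R := ℝ) (φ := fun _ : Fin 3 => ℝ) i).hasFDerivAt
  have h1 : HasFDerivAt U (fderiv ℝ U x) x :=
    (hU.differentiable (by simp)).differentiableAt.hasFDerivAt
  have h2 : HasFDerivAt (fun y : V => y i * U y) _ x := h0.mul h1
  rw [h2.fderiv]
  simp only [_root_.add_apply, _root_.smul_apply,
    ContinuousLinearMap.proj_apply, smul_eq_mul, Pi.single_apply]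
  ring

lemma nsq_zz {v : V → V} (hA : StmAlg) (hv : ContDiff ℝ ∞ v) (ha : Axi v) (x : V) :
    W221.NS.nsq (zz v) x ≤ W221.NS.nsq v x := by
  obtain ⟨_, _, _, h⟩ := hA v hv ha
  obtain ⟨h0, h1, _⟩ := h x
  unfold W221.NS.nsq zz
  simp only [Fin.sum_univ_three, Matrix.cons_val_zero, Matrix.cons_val_one, Matrix.cons_val]
  rw [h0, h1]
  nlinarith [sq_nonneg (x 0 * WW v x), sq_nonneg (x 1 * WW v x)]

lemma gsq_zz {O : Set V} {v : V → V} (hA : StmAlg) (hF : StmAxF) (hv : ContDiff ℝ ∞ v)
    (ha : Axi v) (hd : DFO O v) {x : V} (hx : x ∈ O) :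
    W221.NS.gsq (zz v) x ≤ (12 + 6 * sg x)
      * (UU v x ^ 2 + gr2 (UU v) x + OO v x ^ 2) := by
  obtain ⟨⟨hU, _, _, _⟩, _, _, h⟩ := hA v hv ha
  obtain ⟨h0, h1, _, _, _, _, h6, h7, _, _, _, h11⟩ := h x
  have hv2 : ContDiff ℝ ∞ (fun y => v y 2) := (contDiff_pi.1 hv) 2
  have hax2 : AxF (fun y => v y 2) := by
    intro θ y
    show v (rot θ y) 2 = v y 2
    rw [ha θ y]
    simp [rot]
  obtain ⟨_, _, _, q, hq, _, hq3⟩ := hF _ hv2 hax2
  obtain ⟨q0, q1, q2⟩ := hq3 x
  have hdx := hd x hx
  rw [h7] at hdx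
  have e00 : pd 0 (fun y => zz v y 0) x = UU v x + x 0 * pd 0 (UU v) x := by
    have h := pd_xU 0 0 hU x
    rw [show (fun y => zz v y 0) = fun y => y 0 * UU v y from rfl, h]
    simp
  have e10 : pd 1 (fun y => zz v y 0) x = x 0 * pd 1 (UU v) x := by
    have h := pd_xU 0 1 hU x
    rw [show (fun y => zz v y 0) = fun y => y 0 * UU v y from rfl, h]
    simp
  have e20 : pd 2 (fun y => zz v y 0) x = x 0 * pd 2 (UU v) x := by
    have h := pd_xU 0 2 hU x
    rw [show (fun y => zz v y 0) = fun y => y 0 * UU v y from rfl, h]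
    simp
  have e01 : pd 0 (fun y => zz v y 1) x = x 1 * pd 0 (UU v) x := by
    have h := pd_xU 1 0 hU x
    rw [show (fun y => zz v y 1) = fun y => y 1 * UU v y from rfl, h]
    simp
  have e11 : pd 1 (fun y => zz v y 1) x = UU v x + x 1 * pd 1 (UU v) x := by
    have h := pd_xU 1 1 hU x
    rw [show (fun y => zz v y 1) = fun y => y 1 * UU v y from rfl, h]
    simp
  have e21 : pd 2 (fun y => zz v y 1) x = x 1 * pd 2 (UU v) x := by
    have h := pd_xU 1 2 hU x
    rw [show (fun y => zz v y 1) = fun y => y 1 * UU v y from rfl, h]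
    simp
  have ez2 : (fun y => zz v y 2) = fun y => v y 2 := by
    funext y
    simp [zz]
  unfold W221.NS.gsq gr2
  simp only [Fin.sum_univ_three]
  rw [e00, e10, e20, e01, e11, e21, ez2]
  have e22 : pd 2 (fun y => v y 2) x = -(2 * UU v x + RR (UU v) x) := by linarith
  rw [e22]
  have hsum : pd 0 (fun y => v y 2) x ^ 2 + pd 1 (fun y => v y 2) x ^ 2
      ≤ 2 * sg x * (pd 2 (UU v) x ^ 2 + OO v x ^ 2) := by
    by_cases hs : sg x = 0
    · have hx0 : x 0 = 0 := by
        unfold sg at hs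
        nlinarith [sq_nonneg (x 0), sq_nonneg (x 1)]
      have hx1 : x 1 = 0 := by
        unfold sg at hs
        nlinarith [sq_nonneg (x 0), sq_nonneg (x 1)]
      rw [q0, q1, hs, hx0, hx1]
      simp
    · have hq' : q x = pd 2 (UU v) x - OO v x := by
        have : sg x * q x = sg x * (pd 2 (UU v) x - OO v x) := by
          rw [← q2]; linarith
        exact mul_left_cancel₀ hs this
      rw [q0, q1, hq']
      have hsx : sg x = x 0 ^ 2 + x 1 ^ 2 := rfl
      have hs0 : 0 ≤ sg x := by rw [hsx]; positivity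
      have : (x 0 * (pd 2 (UU v) x - OO v x)) ^ 2 + (x 1 * (pd 2 (UU v) x - OO v x)) ^ 2
          = sg x * (pd 2 (UU v) x - OO v x) ^ 2 := by rw [hsx]; ring
      rw [this]
      nlinarith [mul_nonneg hs0 (sq_nonneg (pd 2 (UU v) x + OO v x))]
  have hsx : sg x = x 0 ^ 2 + x 1 ^ 2 := rfl
  have hs0 : 0 ≤ sg x := by rw [hsx]; positivity
  have hRR : RR (UU v) x ^ 2 ≤ sg x * (pd 0 (UU v) x ^ 2 + pd 1 (UU v) x ^ 2) := by
    unfold RR
    rw [hsx]
    nlinarith [sq_nonneg (x 0 * pd 1 (UU v) x - x 1 * pd 0 (UU v) x)]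
  generalize pd 0 (fun y => v y 2) x = g0 at *
  generalize pd 1 (fun y => v y 2) x = g1 at *
  generalize pd 0 (UU v) x = a at *
  generalize pd 1 (UU v) x = b at *
  generalize pd 2 (UU v) x = d at *
  generalize RR (UU v) x = R at *
  generalize UU v x = U at *
  generalize OO v x = W at *
  generalize x 0 = X at *
  generalize x 1 = Y at *
  generalize sg x = s at *
  subst hsx
  have k1 : (U + X * a) ^ 2 ≤ 2 * U ^ 2 + 2 * X ^ 2 * a ^ 2 := by
    nlinarith [sq_nonneg (U - X * a)]
  have k2 : (U + Y * b) ^ 2 ≤ 2 * U ^ 2 + 2 * Y ^ 2 * b ^ 2 := by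
    nlinarith [sq_nonneg (U - Y * b)]
  have k3 : (-(2 * U + R)) ^ 2 ≤ 8 * U ^ 2 + 2 * R ^ 2 := by
    nlinarith [sq_nonneg (2 * U - R)]
  have l1 : 0 ≤ X ^ 2 * a ^ 2 := by positivity
  have l2 : 0 ≤ X ^ 2 * b ^ 2 := by positivity
  have l3 : 0 ≤ X ^ 2 * d ^ 2 := by positivity
  have l4 : 0 ≤ Y ^ 2 * a ^ 2 := by positivity
  have l5 : 0 ≤ Y ^ 2 * b ^ 2 := by positivity
  have l6 : 0 ≤ Y ^ 2 * d ^ 2 := by positivity
  have l7 : 0 ≤ X ^ 2 * U ^ 2 := by positivity
  have l8 : 0 ≤ Y ^ 2 * U ^ 2 := by positivity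
  have l9 : 0 ≤ X ^ 2 * W ^ 2 := by positivity
  have l10 : 0 ≤ Y ^ 2 * W ^ 2 := by positivity
  have m1 := sq_nonneg a
  have m2 := sq_nonneg b
  have m3 := sq_nonneg d
  have m4 := sq_nonneg W
  linarith

lemma Cy_compact (c r h : ℝ) : IsCompact (Cy c r h) := by
  have hcl : IsClosed (Cy c r h) := by
    have h1 : IsClosed {x : V | sg x ≤ r ^ 2} := by
      apply isClosed_le _ continuous_const
      unfold sg
      fun_prop
    have h2 : IsClosed {x : V | |x 2 - c| ≤ h} := by
      apply isClosed_le _ continuous_const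
      fun_prop
    exact h1.inter h2
  apply Metric.isCompact_of_isClosed_isBounded hcl
  apply (Metric.isBounded_closedBall (x := (0 : V)) (r := |r| + (|c| + |h|))).subset
  intro x hx
  rw [mem_closedBall_zero_iff, pi_norm_le_iff_of_nonneg (by positivity)]
  have hx1 : sg x ≤ r ^ 2 := hx.1
  have hx2 : |x 2 - c| ≤ h := hx.2
  have a0 : |x 0| ≤ |r| := by
    apply abs_le_of_sq_le_sq' _ (abs_nonneg r) |> fun h => abs_le.2 h
    rw [sq_abs]
    unfold sg at hx1
    nlinarith [sq_nonneg (x 1)]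
  have a1 : |x 1| ≤ |r| := by
    apply abs_le_of_sq_le_sq' _ (abs_nonneg r) |> fun h => abs_le.2 h
    rw [sq_abs]
    unfold sg at hx1
    nlinarith [sq_nonneg (x 0)]
  have a2 : |x 2| ≤ |c| + |h| := by
    have : |x 2| ≤ |x 2 - c| + |c| := by
      have := abs_add_le (x 2 - c) c
      simpa using this
    linarith [le_abs_self h]
  intro i
  rw [Real.norm_eq_abs]
  fin_cases i
  · show |x 0| ≤ _
    linarith [abs_nonneg c, abs_nonneg h]
  · show |x 1| ≤ _
    linarith [abs_nonneg c, abs_nonneg h]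
  · show |x 2| ≤ _
    linarith [abs_nonneg r]

/-- Points of small cubes lie in the cylinder. -/
lemma ball_Cy {c r h ρ : ℝ} (h1 : ρ ≤ r / 2) (h2 : ρ ≤ h) {x : V}
    (hx : ‖x - ![0, 0, c]‖ < ρ) : x ∈ Cy c r h := by
  have hρ : 0 < ρ := lt_of_le_of_lt (norm_nonneg _) hx
  have e0 : |x 0| < ρ := by
    have := lt_of_le_of_lt (norm_le_pi_norm (x - ![0, 0, c]) 0) hx
    simpa using this
  have e1 : |x 1| < ρ := by
    have := lt_of_le_of_lt (norm_le_pi_norm (x - ![0, 0, c]) 1) hx
    simpa using this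
  have e2 : |x 2 - c| < ρ := by
    have := lt_of_le_of_lt (norm_le_pi_norm (x - ![0, 0, c]) 2) hx
    simpa using this
  refine ⟨?_, by linarith⟩
  unfold sg
  have k0 : x 0 ^ 2 ≤ ρ ^ 2 := by rw [← sq_abs (x 0)]; gcongr
  have k1 : x 1 ^ 2 ≤ ρ ^ 2 := by rw [← sq_abs (x 1)]; gcongr
  nlinarith

lemma th_bd : ∃ C : ℝ, 0 < C ∧ ∀ y, W221.NS.th y ≤ C := by
  have hc : Continuous W221.NS.th := W221.NS.bmp.continuous_normed
  have hs : HasCompactSupport W221.NS.th := W221.NS.bmp.hasCompactSupport_normed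
  obtain ⟨C, hC⟩ := hc.bounded_above_of_compact_support hs
  refine ⟨max C 1, by positivity, fun y => ?_⟩
  exact (le_abs_self _).trans ((hC y).trans (le_max_left _ _))

lemma th_nn (y : V) : 0 ≤ W221.NS.th y := W221.NS.bmp.nonneg_normed y

lemma th_int : Integrable W221.NS.th := W221.NS.bmp.integrable_normed

lemma th_one : ∫ y, W221.NS.th y = 1 := W221.NS.bmp.integral_normed

lemma th_supp {y : V} (hy : W221.NS.th y ≠ 0) : ‖y‖ < 1 := by
  have h := W221.NS.bmp.support_normed_eq (μ := volume)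
  have h1 : y ∈ Function.support (W221.NS.bmp.normed volume) := hy
  rw [h] at h1
  have : W221.NS.bmp.rOut = 1 := rfl
  rw [this] at h1
  simpa using h1

/-- The change of variables. -/
lemma chv (F : V → ℝ) (x : V) {s : ℝ} (hs : 0 < s) :
    ∫ y in ball (0 : V) 1, F (x + s • y) = (s ^ 3)⁻¹ * ∫ y in ball x s, F y := by
  have h1 : ∫ y in ball (0 : V) 1, F (x + s • y)
      = ∫ y, (ball x s).indicator F (x + s • y) := by
    rw [← integral_indicator measurableSet_ball]
    apply integral_congr_ae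
    filter_upwards with y
    by_cases hy : y ∈ ball (0 : V) 1
    · have hy2 : x + s • y ∈ ball x s := by
        rw [mem_ball, dist_eq_norm]
        simp only [add_sub_cancel_left]
        rw [norm_smul, Real.norm_of_nonneg hs.le]
        rw [mem_ball_zero_iff] at hy
        nlinarith
      rw [indicator_of_mem hy, indicator_of_mem hy2]
    · have hy2 : x + s • y ∉ ball x s := by
        rw [mem_ball, dist_eq_norm]
        simp only [add_sub_cancel_left]
        rw [norm_smul, Real.norm_of_nonneg hs.le]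
        rw [mem_ball_zero_iff, not_lt] at hy
        rw [not_lt]
        nlinarith
      rw [indicator_of_notMem hy, indicator_of_notMem hy2]
  rw [h1]
  have h2 := Measure.integral_comp_smul (volume : Measure V)
    (fun y => (ball x s).indicator F (x + y)) s
  rw [h2, integral_add_left_eq_self (fun y => (ball x s).indicator F y) x,
    integral_indicator measurableSet_ball]
  have h3 : Module.finrank ℝ V = 3 := by
    simp [V]
  rw [h3, abs_of_nonneg (by positivity), smul_eq_mul]

theorem mo (hA : StmAlg) (hF : StmAxF) : StmMo := by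
  intro T E c R H r h T₁ K u p hu hr hrR hh hhH hT₁ hT₁T hK hb
  obtain ⟨C, hC, hsob⟩ := Pool.Agent.W440.MD.t_SOB
  obtain ⟨Ct, hCt, hth⟩ := th_bd
  obtain ⟨ρ, hρ⟩ : ∃ ρ, ρ = min (r / 2) h := ⟨_, rfl⟩
  have hρ0 : 0 < ρ := by rw [hρ]; exact lt_min (by linarith) hh
  have hρr : ρ ≤ r / 2 := by rw [hρ]; exact min_le_left _ _
  have hρh : ρ ≤ h := by rw [hρ]; exact min_le_right _ _
  obtain ⟨a, hadef⟩ : ∃ a : V, a = ![0, 0, c] := ⟨_, rfl⟩
  have hCy : ∀ x : V, ‖x - a‖ < ρ → x ∈ Cy c r h := by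
    intro x hx
    rw [hadef] at hx
    exact ball_Cy hρr hρh hx
  have hCyCo : Cy c r h ⊆ Co c R H := by
    intro x hx
    have h1 : sg x ≤ r ^ 2 := hx.1
    have h2 : |x 2 - c| ≤ h := hx.2
    exact ⟨by nlinarith, by linarith⟩
  have hE : 0 ≤ max E 0 := le_max_right _ _
  obtain ⟨M, hM⟩ : ∃ M, M = C * ((12 + 6 * r ^ 2) * K
    + ((ρ / 2) ^ 2)⁻¹ * max E 0) ^ 3 := ⟨_, rfl⟩
  have hM0 : 0 ≤ M := by rw [hM]; positivity
  -- the bound of the sixth powers
  have key : ∀ t ∈ Ico T₁ T, W221.NS.L6 a (ρ / 2) (zz (u t)) ≤ M := by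
    intro t ht
    have ht' : t ∈ Ioo 0 T := ⟨lt_of_lt_of_le hT₁ ht.1, ht.2⟩
    have hv : ContDiff ℝ ∞ (u t) := by
      have h1 := hu.smooth_u
      rw [← contDiffOn_univ]
      exact h1.comp (contDiff_const.prodMk contDiff_id).contDiffOn
        (fun y _ => ⟨ht', mem_univ _⟩)
    have ha := hu.axi t ht'
    have hd : DFO (Co c R H) (u t) := hu.divfree t ht'
    obtain ⟨⟨hU, _, _, hO⟩, _⟩ := hA (u t) hv ha
    have hzs := zz_sm hv hU
    have h1 := hsob (zz (u t)) hzs a (ρ / 2) (by linarith)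
    refine h1.trans ?_
    rw [hM]
    have e2 : 2 * (ρ / 2) = ρ := by ring
    rw [e2]
    have hsub : ball a ρ ⊆ Cy c r h := by
      intro x hx
      apply hCy
      rw [← dist_eq_norm]
      exact hx
    have hUc : Continuous (fun x => UU (u t) x ^ 2 + gr2 (UU (u t)) x + OO (u t) x ^ 2) := by
      have hg : Continuous (gr2 (UU (u t))) := by
        unfold gr2
        exact continuous_finsetSum _ fun i _ => (Pool.Agent.W440.MD.cont_pd hU i).pow 2
      exact ((hU.continuous.pow 2).add hg).add (hO.continuous.pow 2)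
    have hzc : ∀ i, ContDiff ℝ ∞ (fun y => zz (u t) y i) := fun i => (contDiff_pi.1 hzs) i
    have hgc : Continuous (W221.NS.gsq (zz (u t))) := by
      unfold W221.NS.gsq
      exact continuous_finsetSum _ fun i _ => continuous_finsetSum _ fun j _ =>
        (Pool.Agent.W440.MD.cont_pd (hzc i) j).pow 2
    have hnc : Continuous (W221.NS.nsq (zz (u t))) := by
      unfold W221.NS.nsq
      exact continuous_finsetSum _ fun i _ => (hzc i).continuous.pow 2
    have hnv : Continuous (W221.NS.nsq (u t)) := by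
      unfold W221.NS.nsq
      exact continuous_finsetSum _ fun i _ => ((contDiff_pi.1 hv) i).continuous.pow 2
    have hUi : IntegrableOn (fun x => UU (u t) x ^ 2 + gr2 (UU (u t)) x + OO (u t) x ^ 2)
        (Cy c r h) := hUc.continuousOn.integrableOn_compact (Cy_compact c r h)
    have hB : W221.NS.B2 a ρ (zz (u t)) ≤ (12 + 6 * r ^ 2) * K := by
      unfold W221.NS.B2
      calc ∫ z in ball a ρ, W221.NS.gsq (zz (u t)) z
          ≤ ∫ z in ball a ρ, (12 + 6 * r ^ 2)
              * (UU (u t) z ^ 2 + gr2 (UU (u t)) z + OO (u t) z ^ 2) := by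
            apply setIntegral_mono_on (Pool.Agent.W440.MD.int_ball hgc a ρ)
              ((hUi.mono_set hsub).const_mul _) measurableSet_ball
            intro x hx
            have hx1 := hsub hx
            have h2 := gsq_zz hA hF hv ha hd (hCyCo hx1)
            refine h2.trans ?_
            have h3 : sg x ≤ r ^ 2 := hx1.1
            have h4 : 0 ≤ UU (u t) x ^ 2 + gr2 (UU (u t)) x + OO (u t) x ^ 2 := by
              unfold gr2
              positivity
            gcongr
        _ = (12 + 6 * r ^ 2) * ∫ z in ball a ρ,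
              (UU (u t) z ^ 2 + gr2 (UU (u t)) z + OO (u t) z ^ 2) := integral_const_mul _ _
        _ ≤ (12 + 6 * r ^ 2) * K := by
            apply mul_le_mul_of_nonneg_left _ (by positivity)
            refine (setIntegral_mono_set hUi ?_ hsub.eventuallyLE).trans (hb t ht).2
            filter_upwards with x
            show 0 ≤ UU (u t) x ^ 2 + gr2 (UU (u t)) x + OO (u t) x ^ 2
            unfold gr2
            positivity
    have hAA : W221.NS.A2 a ρ (zz (u t)) ≤ max E 0 := by
      unfold W221.NS.A2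
      calc ∫ z in ball a ρ, W221.NS.nsq (zz (u t)) z
          ≤ ∫ z in ball a ρ, W221.NS.nsq (u t) z := by
            apply setIntegral_mono_on (Pool.Agent.W440.MD.int_ball hnc a ρ)
              (Pool.Agent.W440.MD.int_ball hnv a ρ) measurableSet_ball
            intro x _
            exact nsq_zz hA hv ha x
        _ ≤ ∫ z in Co c R H, W221.NS.nsq (u t) z := by
            refine setIntegral_mono_set (hu.en_int t ht') ?_ (hsub.trans hCyCo).eventuallyLE
            filter_upwards with x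
            show 0 ≤ W221.NS.nsq (u t) x
            unfold W221.NS.nsq
            positivity
        _ ≤ E := hu.en t ht'
        _ ≤ max E 0 := le_max_left _ _
    have hB0 : 0 ≤ W221.NS.B2 a ρ (zz (u t)) := by
      unfold W221.NS.B2
      apply setIntegral_nonneg measurableSet_ball
      intro x _
      unfold W221.NS.gsq
      positivity
    have hA0 : 0 ≤ W221.NS.A2 a ρ (zz (u t)) := by
      unfold W221.NS.A2
      apply setIntegral_nonneg measurableSet_ball
      intro x _
      unfold W221.NS.nsq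
      positivity
    gcongr
  refine ⟨r * K + 1 + Ct * M, by positivity, T₁, min 1 (ρ / 4), ρ / 4, hT₁.le, hT₁T,
    lt_min one_pos (by linarith), by linarith, ?_⟩
  intro t ht x hx s hs
  have hs0 : 0 < s := hs.1
  have hs1 : s ≤ 1 := hs.2.trans (min_le_left _ _)
  have hsρ : s ≤ ρ / 4 := hs.2.trans (min_le_right _ _)
  have htI : t ∈ Ico T₁ T := ⟨ht.1.le, ht.2⟩
  have ht' : t ∈ Ioo 0 T := ⟨hT₁.trans ht.1, ht.2⟩
  have hv : ContDiff ℝ ∞ (u t) := by
    have h1 := hu.smooth_u
    rw [← contDiffOn_univ]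
    exact h1.comp (contDiff_const.prodMk contDiff_id).contDiffOn
      (fun y _ => ⟨ht', mem_univ _⟩)
  have ha := hu.axi t ht'
  obtain ⟨⟨hU, hW, _, _⟩, _, _, hal⟩ := hA (u t) hv ha
  have hzs := zz_sm hv hU
  have hzc : ∀ i, ContDiff ℝ ∞ (fun y => zz (u t) y i) := fun i => (contDiff_pi.1 hzs) i
  have hxa : ‖x - a‖ ≤ ρ / 4 := by
    rw [← dist_eq_norm, hadef]
    exact hx
  have hin : ∀ y : V, ‖y‖ < 1 → ‖x + s • y - a‖ < ρ / 2 := by
    intro y hy
    have e1 : x + s • y - a = (x - a) + s • y := by abel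
    rw [e1]
    have h1 := norm_add_le (x - a) (s • y)
    rw [norm_smul, Real.norm_of_nonneg hs0.le] at h1
    have h2 : s * ‖y‖ < s * 1 := by
      apply mul_lt_mul_of_pos_left hy hs0
    linarith
  have hn6 : Continuous (fun y => W221.NS.nsq (zz (u t)) y ^ 3) := by
    unfold W221.NS.nsq
    exact (continuous_finsetSum _ fun i _ => (hzc i).continuous.pow 2).pow 3
  rw [pi_norm_le_iff_of_nonneg (by positivity)]
  intro i
  rw [Real.norm_eq_abs]
  unfold W221.NS.mol
  -- pointwise bound of the integrand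
  have hpt : ∀ y : V, |W221.NS.th y * u t (x + s • y) i|
      ≤ W221.NS.th y * (r * K + s⁻¹) + (ball (0 : V) 1).indicator
        (fun y => Ct * s ^ 5 * W221.NS.nsq (zz (u t)) (x + s • y) ^ 3) y := by
    intro y
    have hn0 : ∀ y, 0 ≤ W221.NS.nsq (zz (u t)) y := by
      intro y
      unfold W221.NS.nsq
      positivity
    by_cases hy : W221.NS.th y = 0
    · rw [hy]
      simp only [zero_mul, abs_zero, zero_add]
      apply indicator_nonneg
      intro z _
      have := hn0 (x + s • z)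
      positivity
    · have hy1 : ‖y‖ < 1 := th_supp hy
      have hyb : y ∈ ball (0 : V) 1 := by simpa using hy1
      rw [indicator_of_mem hyb, abs_mul, abs_of_nonneg (th_nn y)]
      have hx' := hin y hy1
      obtain ⟨x', hx'def⟩ : ∃ x', x' = x + s • y := ⟨_, rfl⟩
      rw [← hx'def] at hx' ⊢
      have hcy : x' ∈ Cy c r h := hCy x' (by linarith)
      have hWb : |WW (u t) x'| ≤ K := (hb t htI).1 x' hcy
      obtain ⟨g0, g1, _⟩ := hal x'
      have hsg : sg x' ≤ r ^ 2 := hcy.1
      have hx0 : |x' 0| ≤ r := by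
        apply abs_le_of_sq_le_sq' _ hr.le |> fun h => abs_le.2 h
        unfold sg at hsg
        nlinarith [sq_nonneg (x' 1)]
      have hx1 : |x' 1| ≤ r := by
        apply abs_le_of_sq_le_sq' _ hr.le |> fun h => abs_le.2 h
        unfold sg at hsg
        nlinarith [sq_nonneg (x' 0)]
      have hsplit : |u t x' i| ≤ r * K + |zz (u t) x' i| := by
        fin_cases i
        · show |u t x' 0| ≤ r * K + |x' 0 * UU (u t) x'|
          rw [g0]
          have h1 := abs_sub (x' 0 * UU (u t) x') (x' 1 * WW (u t) x')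
          have h2 : |x' 1 * WW (u t) x'| ≤ r * K := by
            rw [abs_mul]
            gcongr
          linarith
        · show |u t x' 1| ≤ r * K + |x' 1 * UU (u t) x'|
          rw [g1]
          have h1 := abs_add_le (x' 1 * UU (u t) x') (x' 0 * WW (u t) x')
          have h2 : |x' 0 * WW (u t) x'| ≤ r * K := by
            rw [abs_mul]
            gcongr
          linarith
        · show |u t x' 2| ≤ r * K + |u t x' 2|
          have : 0 ≤ r * K := by positivity
          linarith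
      have hyoung : |zz (u t) x' i| ≤ s⁻¹ + s ^ 5 * W221.NS.nsq (zz (u t)) x' ^ 3 := by
        have h1 : zz (u t) x' i ^ 2 ≤ W221.NS.nsq (zz (u t)) x' := by
          unfold W221.NS.nsq
          exact Finset.single_le_sum (f := fun i => zz (u t) x' i ^ 2)
            (fun j _ => sq_nonneg _) (Finset.mem_univ i)
        have h2 : |zz (u t) x' i| ^ 6 ≤ W221.NS.nsq (zz (u t)) x' ^ 3 := by
          calc |zz (u t) x' i| ^ 6 = (zz (u t) x' i ^ 2) ^ 3 := by
                rw [← sq_abs (zz (u t) x' i)]; ring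
            _ ≤ _ := by gcongr
        obtain ⟨b, hb'⟩ : ∃ b, b = |zz (u t) x' i| := ⟨_, rfl⟩
        have hb0 : 0 ≤ b := by rw [hb']; exact abs_nonneg _
        rw [← hb'] at h2 ⊢
        have h3 : s * b ≤ 1 + (s * b) ^ 6 := by
          by_cases h4 : s * b ≤ 1
          · have : 0 ≤ (s * b) ^ 6 := by positivity
            linarith
          · rw [not_le] at h4
            have : (s * b) ^ 1 ≤ (s * b) ^ 6 := pow_le_pow_right₀ h4.le (by norm_num)
            rw [pow_one] at this
            linarith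
        have h5 : b = s⁻¹ * (s * b) := by field_simp
        rw [h5]
        calc s⁻¹ * (s * b) ≤ s⁻¹ * (1 + (s * b) ^ 6) := by gcongr
          _ = s⁻¹ + s ^ 5 * b ^ 6 := by field_simp
          _ ≤ s⁻¹ + s ^ 5 * W221.NS.nsq (zz (u t)) x' ^ 3 := by gcongr
      have ht1 := hth y
      have ht0 := th_nn y
      have hn3 : 0 ≤ s ^ 5 * W221.NS.nsq (zz (u t)) x' ^ 3 := by
        have := hn0 x'
        positivity
      calc W221.NS.th y * |u t x' i|
          ≤ W221.NS.th y * ((r * K + s⁻¹) + s ^ 5 * W221.NS.nsq (zz (u t)) x' ^ 3) := by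
            apply mul_le_mul_of_nonneg_left _ ht0
            linarith
        _ = W221.NS.th y * (r * K + s⁻¹)
            + W221.NS.th y * (s ^ 5 * W221.NS.nsq (zz (u t)) x' ^ 3) := by ring
        _ ≤ W221.NS.th y * (r * K + s⁻¹)
            + Ct * (s ^ 5 * W221.NS.nsq (zz (u t)) x' ^ 3) := by gcongr
        _ = _ := by ring
  have hi2 : Integrable ((ball (0 : V) 1).indicator
      (fun y => Ct * s ^ 5 * W221.NS.nsq (zz (u t)) (x + s • y) ^ 3)) := by
    rw [integrable_indicator_iff measurableSet_ball]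
    apply Pool.Agent.W440.MD.int_ball
    have : Continuous (fun y : V => x + s • y) := by fun_prop
    exact continuous_const.mul (hn6.comp this)
  have hi1 : Integrable (fun y : V => W221.NS.th y * (r * K + s⁻¹)) := th_int.mul_const _
  have hL6 : ∫ y in ball x s, W221.NS.nsq (zz (u t)) y ^ 3 ≤ M := by
    refine le_trans ?_ (key t htI)
    unfold W221.NS.L6
    apply setIntegral_mono_set (Pool.Agent.W440.MD.int_ball hn6 _ _)
    · filter_upwards with y
      show 0 ≤ W221.NS.nsq (zz (u t)) y ^ 3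
      unfold W221.NS.nsq
      positivity
    · apply LE.le.eventuallyLE
      intro y hy
      rw [mem_ball, dist_eq_norm] at hy ⊢
      have h1 := norm_add_le (y - x) (x - a)
      rw [sub_add_sub_cancel] at h1
      linarith
  calc |∫ y, W221.NS.th y * u t (x + s • y) i|
      ≤ ∫ y, |W221.NS.th y * u t (x + s • y) i| := abs_integral_le_integral_abs
    _ ≤ ∫ y, (W221.NS.th y * (r * K + s⁻¹) + (ball (0 : V) 1).indicator
        (fun y => Ct * s ^ 5 * W221.NS.nsq (zz (u t)) (x + s • y) ^ 3) y) := by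
        apply integral_mono_of_nonneg
        · filter_upwards with y
          exact abs_nonneg _
        · exact hi1.add hi2
        · filter_upwards with y
          exact hpt y
    _ = (r * K + s⁻¹) + Ct * s ^ 5 * ((s ^ 3)⁻¹
          * ∫ y in ball x s, W221.NS.nsq (zz (u t)) y ^ 3) := by
        rw [integral_add hi1 hi2, integral_mul_const, th_one, one_mul,
          integral_indicator measurableSet_ball, integral_const_mul,
          chv (fun y => W221.NS.nsq (zz (u t)) y ^ 3) x hs0]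
    _ ≤ (r * K + s⁻¹) + Ct * s ^ 5 * ((s ^ 3)⁻¹ * M) := by gcongr
    _ = r * K + s⁻¹ + Ct * M * s ^ 2 := by
        field_simp
    _ ≤ (r * K + 1 + Ct * M) / s := by
        rw [le_div_iff₀ hs0]
        have e1 : (r * K + s⁻¹ + Ct * M * s ^ 2) * s = r * K * s + 1 + Ct * M * s ^ 3 := by
          field_simp
        rw [e1]
        have k1 : r * K * s ≤ r * K * 1 := by gcongr
        have k2 : s ^ 3 ≤ 1 := pow_le_one₀ hs0.le hs1
        have k3 : Ct * M * s ^ 3 ≤ Ct * M * 1 := by gcongr
        linarith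

end Pool.Agent.Q16.AXI
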