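import Pool.Agent.Q67.AXI.Defs
import Pool.Agent.Q284.CL.Dom

/-!
Project AXI (lemma AXI-37): from solutions in a domain to the class `AxL`.
-/

set_option autoImplicit false

open MeasureTheory Set Metric Filter Topology
open scoped ContDiff
open H459R3.NS Pool.Agent.W268.NS Pool.Agent.Q67.VD

namespace Pool.Agent.Q16.AXI

open Pool.Agent.Q85.CC Pool.Agent.Q85.CL Pool.Agent.TH305.AX Pool.Agent.Q67.AXI

lemma pd_ev {E : Type*} [NormedAddCommGroup E] [NormedSpace ℝ E] {f g : V → E} {x : V}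
    (h : f =ᶠ[𝓝 x] g) (j : Fin 3) : pd j f =ᶠ[𝓝 x] pd j g := by
  have h1 := h.fderiv (𝕜 := ℝ)
  filter_upwards [h1] with y hy
  unfold pd
  rw [hy]

/-- One variable cut-off. -/
noncomputable def cf (R s : ℝ) : ℝ :=
  Real.smoothTransition ((9 / 16 * R ^ 2 - s) / (5 / 16 * R ^ 2))

lemma cf_sm (R : ℝ) : ContDiff ℝ ∞ (cf R) := by
  unfold cf
  exact Real.smoothTransition.contDiff.comp ((contDiff_const.sub contDiff_id).div_const _)

lemma cf_one {R s : ℝ} (hR : 0 < R) (hs : s ≤ (R / 2) ^ 2) : cf R s = 1 := by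
  unfold cf
  apply Real.smoothTransition.one_of_one_le
  rw [le_div_iff₀ (by positivity)]
  nlinarith

lemma cf_lt {R s : ℝ} (hR : 0 < R) (hs : cf R s ≠ 0) : s < (3 / 4 * R) ^ 2 := by
  by_contra hcon
  rw [not_lt] at hcon
  apply hs
  unfold cf
  apply Real.smoothTransition.zero_of_nonpos
  apply div_nonpos_of_nonpos_of_nonneg
  · nlinarith
  · positivity

/-- The cut-off. -/
noncomputable def chi (c R : ℝ) (x : V) : ℝ := cf R (sg x) * cf R ((x 2 - c) ^ 2)

lemma chi_sm (c R : ℝ) : ContDiff ℝ ∞ (chi c R) := by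
  unfold chi
  refine ContDiff.mul ((cf_sm R).comp ?_) ((cf_sm R).comp ?_)
  · unfold sg
    fun_prop
  · fun_prop

lemma sg_rot (θ : ℝ) (x : V) : sg (rot θ x) = sg x := by
  unfold sg rot
  simp only [Matrix.cons_val_zero, Matrix.cons_val_one]
  have h := Real.sin_sq_add_cos_sq θ
  linear_combination (x 0 ^ 2 + x 1 ^ 2) * h

lemma rot_two (θ : ℝ) (x : V) : rot θ x 2 = x 2 := by
  unfold rot
  simp

lemma chi_rot (c R θ : ℝ) (x : V) : chi c R (rot θ x) = chi c R x := by
  unfold chi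
  rw [sg_rot, rot_two]

lemma rot_smul (θ k : ℝ) (x : V) : rot θ (k • x) = k • rot θ x := by
  unfold rot
  ext i
  fin_cases i
  · simp
    ring
  · simp
    ring
  · simp

lemma chi_one {c R : ℝ} (hR : 0 < R) {x : V} (hx : x ∈ Co c (R / 2) (R / 2)) :
    chi c R x = 1 := by
  unfold chi
  rw [cf_one hR hx.1.le, cf_one hR, one_mul]
  have h := hx.2
  exact sq_le_sq' (by linarith [abs_lt.1 h]) (by linarith [abs_lt.1 h])

lemma mem_ball_of {c R r : ℝ} (hr : 0 < r) (hrR : r < R) {x : V} (h1 : sg x < r ^ 2)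
    (h2 : (x 2 - c) ^ 2 < r ^ 2) : x ∈ ball (![0, 0, c] : V) R := by
  rw [mem_ball, dist_pi_lt_iff (hr.trans hrR)]
  unfold sg at h1
  intro i
  rw [Real.dist_eq]
  fin_cases i
  · simp only [Fin.zero_eta, Matrix.cons_val_zero, sub_zero]
    exact (abs_lt_of_sq_lt_sq (by nlinarith [sq_nonneg (x 1)]) hr.le).trans hrR
  · simp only [Fin.mk_one, Matrix.cons_val_one, Matrix.cons_val_zero, sub_zero]
    exact (abs_lt_of_sq_lt_sq (by nlinarith [sq_nonneg (x 0)]) hr.le).trans hrR
  · simp only [Fin.reduceFinMk, Matrix.cons_val]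
    exact (abs_lt_of_sq_lt_sq h2 hr.le).trans hrR

lemma isOpen_Co (c r h : ℝ) : IsOpen (Co c r h) := by
  have h1 : IsOpen {x : V | sg x < r ^ 2} := by
    refine isOpen_lt ?_ continuous_const
    unfold sg
    fun_prop
  have h2 : IsOpen {x : V | |x 2 - c| < h} := by
    refine isOpen_lt ?_ continuous_const
    fun_prop
  exact h1.inter h2

lemma Co_sub {c R : ℝ} (hR : 0 < R) : Co c (R / 2) (R / 2) ⊆ ball (![0, 0, c] : V) R := by
  intro x hx
  refine mem_ball_of (r := R / 2) (by linarith) (by linarith) hx.1 ?_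
  exact sq_lt_sq' (by linarith [abs_lt.1 hx.2]) (by linarith [abs_lt.1 hx.2])

theorem tra (hdom : StmDom) : StmTra := by
  intro ν T E Ω u p hν hT hD hax c R hR hsub
  obtain ⟨E', v0, q0, hL, hv⟩ := hdom ν T E Ω u p hν hT hD ![0, 0, c] R hR hsub
  have hCo := isOpen_Co c (R / 2) (R / 2)
  have hCs := Co_sub (c := c) hR
  set v : ℝ → V → V := fun t x => chi c R x • v0 t x with hvdef
  have hev : ∀ t : ℝ, ∀ x ∈ Co c (R / 2) (R / 2), ∀ i,
      (fun y => v t y i) =ᶠ[𝓝 x] fun y => v0 t y i := by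
    intro t x hx i
    filter_upwards [hCo.mem_nhds hx] with y hy
    simp only [hvdef, chi_one hR hy, one_smul]
  have heq : ∀ t : ℝ, ∀ x ∈ Co c (R / 2) (R / 2), v t x = v0 t x := by
    intro t x hx
    simp only [hvdef, chi_one hR hx, one_smul]
  have hnsq : ∀ t : ℝ, ∀ x ∈ Co c (R / 2) (R / 2), W221.NS.nsq (v t) x = W221.NS.nsq (v0 t) x := by
    intro t x hx
    unfold W221.NS.nsq
    rw [heq t x hx]
  have hgsq : ∀ t : ℝ, ∀ x ∈ Co c (R / 2) (R / 2), W221.NS.gsq (v t) x = W221.NS.gsq (v0 t) x := by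
    intro t x hx
    unfold W221.NS.gsq
    refine Finset.sum_congr rfl fun i _ => Finset.sum_congr rfl fun j _ => ?_
    rw [(pd_ev (hev t x hx i) j).eq_of_nhds]
  refine ⟨E', v, q0, ⟨⟨⟨hCo, ?_, hL.smooth_p, ?_, ?_⟩, ?_, ?_, ?_, ?_⟩, ?_⟩, ?_⟩
  · have h1 : ContDiffOn ℝ ∞ (fun z : ℝ × V => chi c R z.2) (Ioo 0 (ν * T) ×ˢ univ) :=
      ((chi_sm c R).comp contDiff_snd).contDiffOn
    exact h1.smul hL.smooth_u
  · intro t ht x hx
    rw [← hL.divfree t ht x (hCs hx)]
    refine Finset.sum_congr rfl fun i _ => ?_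
    exact (pd_ev (hev t x hx i) i).eq_of_nhds
  · intro t ht x hx i
    have h := hL.momentum t ht x (hCs hx) i
    have h1 : (fun s => v s x i) = fun s => v0 s x i := by
      funext s
      rw [heq s x hx]
    rw [h1, heq t x hx]
    have h2 : ∀ j, pd j (fun y => v t y i) x = pd j (fun y => v0 t y i) x := fun j =>
      (pd_ev (hev t x hx i) j).eq_of_nhds
    have h3 : ∀ j, pd j (pd j (fun y => v t y i)) x = pd j (pd j (fun y => v0 t y i)) x := fun j =>
      (pd_ev (pd_ev (hev t x hx i) j) j).eq_of_nhds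
    simp only [h2, h3]
    exact h
  · intro t ht
    refine ((hL.en_int t ht).mono_set hCs).congr_fun (fun x hx => (hnsq t x hx).symm) hCo.measurableSet
  · intro t ht
    rw [setIntegral_congr_fun hCo.measurableSet (fun x hx => hnsq t x hx)]
    refine (setIntegral_mono_set (hL.en_int t ht) ?_ hCs.eventuallyLE).trans (hL.en t ht)
    exact Eventually.of_forall fun x => Finset.sum_nonneg fun i _ => sq_nonneg _
  · refine (hL.dis.mono_set (prod_mono_right hCs)).congr_fun ?_
      (measurableSet_Ioo.prod hCo.measurableSet)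
    rintro ⟨t, x⟩ hz
    exact (hgsq t x hz.2).symm
  · exact hL.prs.mono_set (prod_mono_right hCs)
  · intro t ht θ x
    have ht' : t / ν ∈ Ioo 0 T := ⟨div_pos ht.1 hν, by
      rw [div_lt_iff₀ hν]
      nlinarith [ht.2]⟩
    have htν : ν * (t / ν) = t := by field_simp
    show chi c R (rot θ x) • v0 t (rot θ x) = rot θ (chi c R x • v0 t x)
    rw [chi_rot, rot_smul]
    by_cases h0 : chi c R x = 0
    · rw [h0, zero_smul, zero_smul]
    · congr 1
      have h1 : cf R (sg x) ≠ 0 := fun h => h0 (by unfold chi; rw [h, zero_mul])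
      have h2 : cf R ((x 2 - c) ^ 2) ≠ 0 := fun h => h0 (by unfold chi; rw [h, mul_zero])
      have hx : x ∈ ball (![0, 0, c] : V) R :=
        mem_ball_of (r := 3 / 4 * R) (by linarith) (by linarith) (cf_lt hR h1) (cf_lt hR h2)
      have hrx : rot θ x ∈ ball (![0, 0, c] : V) R := by
        refine mem_ball_of (r := 3 / 4 * R) (by linarith) (by linarith) ?_ ?_
        · rw [sg_rot]
          exact cf_lt hR h1
        · rw [rot_two]
          exact cf_lt hR h2
      have e1 := hv (t / ν) ht' x hx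
      have e2 := hv (t / ν) ht' (rot θ x) hrx
      rw [htν] at e1 e2
      rw [e1, e2, hax (t / ν) ht' θ x (hsub (ball_subset_closedBall hx))
        (hsub (ball_subset_closedBall hrx)), rot_smul]
  · intro t ht x hx
    rw [heq _ x hx]
    exact hv t ht x (hCs hx)

/-- AXI-TRA. -/
theorem tra' : StmTra := tra Pool.Agent.Q284.CL.dom

end Pool.Agent.Q16.AXI
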